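import Pool.Agent.Work.MP_80ee1d_an.Ball

open CritSys Metric

/-- The exact range of couplings below `√(μ₁ μ₂)` on a ball (superseded by `BallWindow`). -/
theorem CritSys.old_ball_range_result (R : ℝ) (hR : 0 < R)
    (l₁ l₂ μ₁ μ₂ : ℝ) (k1 : -lam1 (ball 0 R) < l₁) (k2 : l₁ ≤ l₂) (k3 : l₂ < 0) (h1 : 0 < μ₁)
    (h2 : 0 < μ₂) (β : ℝ) (hβ : 0 ≤ β) (hd : β ^ 2 < μ₁ * μ₂) :
    HasGroundState (ball 0 R) l₁ l₂ μ₁ μ₂ β ↔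
      β < min (betaHat (ball 0 R) l₁ μ₁ l₂) (betaHat (ball 0 R) l₂ μ₂ l₁) :=
  final_ball R hR l₁ l₂ μ₁ μ₂ k1 k2 k3 h1 h2 β hβ hd
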