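import Pool.Agent.Work.MP_80ee1d_an.Final

open CritSys

/-- The set of couplings `β ≥ 0` with a positive ground state, for `λ₁, λ₂` close to `-λ₁(Ω)`
(superseded by `NearFirst`). -/
theorem CritSys.old_near_eigen_result (Ω : Set E4) (ho : IsOpen Ω)
    (hc : IsConnected Ω) (hb : Bornology.IsBounded Ω) (μ₁ μ₂ : ℝ) (h1 : 0 < μ₁) (h2 : 0 < μ₂)
    (ρ : ℝ) (hρ : 0 < ρ) :
    ∃ ε : ℝ, 0 < ε ∧ ∀ l₁ l₂ : ℝ, -lam1 Ω < l₁ → l₁ ≤ l₂ → l₂ < 0 → l₂ < -lam1 Ω + ε →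
      ρ ≤ (lam1 Ω + l₁) / (lam1 Ω + l₂) →
      ρ ≤ |((lam1 Ω + l₁) / (lam1 Ω + l₂)) ^ 2 * μ₂ - μ₁| →
      ∀ β : ℝ, 0 ≤ β → (HasGroundState Ω l₁ l₂ μ₁ μ₂ β ↔
        β < min (betaHat Ω l₁ μ₁ l₂) (betaHat Ω l₂ μ₂ l₁) ∨
          max (betaHat Ω l₁ μ₁ l₂) (betaHat Ω l₂ μ₂ l₁) < β) :=
  final_near Ω ho hc hb μ₁ μ₂ h1 h2 ρ hρ
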